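import Mathlib

/-!
# Definitions for the theorem of relative dimension two (Chow groups of one-cycles and
Milnor K-cohomology of thickenings), see the text H15_KEW.md.

* `lenAt φ a`: length of `S ⧸ (ker φ + (a))` for a ring homomorphism `φ : S →+* κ`;
* `ordP φ h`: order of `h ∈ κˣ` along `S ⧸ ker φ`;
* `tamP j ρ f g`: the tame symbol, `j : S →+* K` the fraction field, `ρ : S →+* κ` the residue field;
* `Pl O K κ`: a place of `K = Frac O` centred at a height one prime of `O`, seen from `O`;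
* `IsY π y`: `y` is a prime which contains `π` and is minimal among those different from `(π)`;
* `U π n φ y`: the units congruent to one modulo `π ^ n` at `y`;
* `Loc O K C ι κ`: the data of section 1 of the text.
-/

namespace KW

universe u

/-- length of `S ⧸ (ker φ + (a))` -/
noncomputable def lenAt {S κ : Type*} [CommRing S] [CommRing κ] (φ : S →+* κ) (a : S) : ℕ :=
  (Module.length S (S ⧸ (RingHom.ker φ ⊔ Ideal.span {a}))).toNat

open Classical in
/-- order of `h = φ a / φ b` along the ring `S ⧸ ker φ` -/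
noncomputable def ordP {S κ : Type*} [CommRing S] [Field κ] (φ : S →+* κ) (h : κˣ) : ℤ :=
  if H : ∃ ab : S × S, φ ab.2 ≠ 0 ∧ (h : κ) * φ ab.2 = φ ab.1 then
    (lenAt φ H.choose.1 : ℤ) - (lenAt φ H.choose.2 : ℤ) else 0

/-- the element `(-1)^(v f v g) f^(v g) g^(- v f)` of `Kˣ`, `v` the order along `j : S →+* K` -/
noncomputable def tamE {S K : Type*} [CommRing S] [Field K] (j : S →+* K) (f g : Kˣ) : Kˣ :=
  (-1) ^ (ordP j f * ordP j g) * f ^ (ordP j g) * (g ^ (ordP j f))⁻¹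

open Classical in
/-- the tame symbol of a discrete valuation ring `S` with fraction field `K` (through `j`) and
residue field `κ` (through `ρ`) -/
noncomputable def tamP {S K κ : Type*} [CommRing S] [Field K] [Field κ] (j : S →+* K)
    (ρ : S →+* κ) (f g : Kˣ) : κˣ :=
  if H : ∃ ab : S × κˣ × κˣ × S, (ab.2.1 : κ) = ρ ab.1 ∧ (ab.2.2.1 : κ) = ρ ab.2.2.2 ∧
      (tamE j f g : K) * j ab.2.2.2 = j ab.1 then
    H.choose.2.1 * (H.choose.2.2.1)⁻¹ else 1

/-- A place of `K` (the fraction field of `O`) centred at a height one prime of `O`, seen from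
`O`: the map `φ` to the residue field, the valuation `v`, the tame symbol `T`. -/
structure Pl (O K κ : Type*) [CommRing O] [Field K] [Field κ] [Algebra O K] where
  φ : O →+* κ
  v : Kˣ → ℤ
  T : Kˣ → Kˣ → κˣ
  frac : ∀ x : κ, ∃ a s : O, φ s ≠ 0 ∧ x * φ s = φ a
  v_mul : ∀ f g, v (f * g) = v f + v g
  v_nonneg : ∀ (f : Kˣ) (a : O), (f : K) = algebraMap O K a → 0 ≤ v f
  v_zero : ∀ (f : Kˣ) (a : O), (f : K) = algebraMap O K a → (v f = 0 ↔ φ a ≠ 0)
  v_int : ∀ f : Kˣ, 0 ≤ v f → ∃ a s : O, φ s ≠ 0 ∧ (f : K) * algebraMap O K s = algebraMap O K a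
  v_unif : ∃ (a : O) (f : Kˣ), (f : K) = algebraMap O K a ∧ v f = 1
  T_mul_left : ∀ f f' g, T (f * f') g = T f g * T f' g
  T_mul_right : ∀ f g g', T f (g * g') = T f g * T f g'
  T_unit : ∀ (f g : Kˣ) (a s : O), φ a ≠ 0 → φ s ≠ 0 →
    (g : K) * algebraMap O K s = algebraMap O K a →
    ((T f g : κˣ) : κ) = (φ a / φ s) ^ (-(v f)) ∧ ((T g f : κˣ) : κ) = (φ a / φ s) ^ (v f)
  T_stein : ∀ f g : Kˣ, (f : K) + (g : K) = 1 → T f g = 1

/-- `y` contains `π` and is minimal among the primes which contain `π` and are not `(π)` -/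
def IsY {O : Type*} [CommRing O] (π : O) (y : Ideal O) : Prop :=
  y.IsPrime ∧ π ∈ y ∧ y ≠ Ideal.span {π} ∧
    ∀ q : Ideal O, q.IsPrime → π ∈ q → q ≤ y → q = Ideal.span {π} ∨ q = y

/-- the units `1 + π ^ n φ(a) / φ(s)`, `s` not in `y` -/
def U {O κ : Type*} [CommRing O] [Field κ] (π : O) (n : ℕ) (φ : O →+* κ) (y : Ideal O) :
    Set κˣ :=
  {h | ∃ a s : O, s ∉ y ∧ (h : κ) * φ s = φ s + φ π ^ n * φ a}

/-- The data of the local theorem: `ι` is the set of the height one primes of `O` which do not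
contain `π`. -/
structure Loc (O K C : Type*) [CommRing O] [Field K] [Algebra O K] [AddCommGroup C]
    (ι : Type*) (κ : ι → Type*) [∀ w, Field (κ w)] where
  π : O
  n : ℕ
  q : ℕ
  pl : ∀ w, Pl O K (κ w)
  δ : ∀ w, (κ w)ˣ → C
  prime : Prime π
  npos : 0 < n
  qpos : 0 < q
  qC : ∀ c : C, q • c = 0
  ht : ∀ w, (RingHom.ker (pl w).φ).height = 1
  hor : ∀ w, (pl w).φ π ≠ 0
  inj : Function.Injective fun w => RingHom.ker (pl w).φ
  surj : ∀ W : Ideal O, W.IsPrime → W.height = 1 → π ∉ W → ∃ w, RingHom.ker (pl w).φ = W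
  dim : ∀ w, ∀ y ∈ (RingHom.ker (pl w).φ ⊔ Ideal.span {π}).minimalPrimes, IsY π y
  δ_mul : ∀ w h h', δ w (h * h') = δ w h + δ w h'
  δ_zero : ∀ w h, (∀ y, IsY π y → RingHom.ker (pl w).φ ≤ y → h ∈ U π n (pl w).φ y) → δ w h = 0
  δ_sum : ∀ f g : Kˣ, ∑ᶠ w, δ w ((pl w).T f g) = 0

namespace Loc

variable {O K C : Type*} [CommRing O] [Field K] [Algebra O K] [AddCommGroup C]
    {ι : Type*} {κ : ι → Type*} [∀ w, Field (κ w)] (L : Loc O K C ι κ)

/-- the height one prime of the place `w` -/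
def P (w : ι) : Ideal O := RingHom.ker (L.pl w).φ

/-- `f'` is congruent to `f` at `y` and to one at the other `y'` of the place `w` -/
def Approx (w : ι) (y : Ideal O) (f f' : (κ w)ˣ) : Prop :=
  f' * f⁻¹ ∈ U L.π L.n (L.pl w).φ y ∧
    ∀ y', IsY L.π y' → L.P w ≤ y' → y' ≠ y → f' ∈ U L.π L.n (L.pl w).φ y'

open Classical in
/-- `R_{w,y}(f) = δ_w(f')` -/
noncomputable def R (w : ι) (y : Ideal O) (f : (κ w)ˣ) : C :=
  if H : (IsY L.π y ∧ L.P w ≤ y) ∧ ∃ f', L.Approx w y f f' then L.δ w H.2.choose else 0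

/-- `R_y(f,g)`, the sum over the places `w` of `R_{w,y}` of the tame symbol -/
noncomputable def RR (y : Ideal O) (f g : Kˣ) : C :=
  ∑ᶠ w, L.R w y ((L.pl w).T f g)

end Loc

end KW
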