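import Pool.Agent.H15.KW.Defs

/-!
# Targets of block L (section 1 of the text H15_KEW.md)
-/

namespace KW

universe u

/-- `U` is a subgroup of the units -/
def L_GRP : Prop :=
  ∀ {O K C : Type u} [CommRing O] [IsDomain O] [IsNoetherianRing O] [Field K] [Algebra O K]
    [IsFractionRing O K] [AddCommGroup C] {ι : Type u} {κ : ι → Type u} [∀ w, Field (κ w)]
    (L : Loc O K C ι κ),
    ∀ w y, IsY L.π y → L.P w ≤ y →
      (1 : (κ w)ˣ) ∈ U L.π L.n (L.pl w).φ y ∧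
      (∀ h h' : (κ w)ˣ, h ∈ U L.π L.n (L.pl w).φ y → h' ∈ U L.π L.n (L.pl w).φ y →
        h * h' ∈ U L.π L.n (L.pl w).φ y) ∧
      (∀ h : (κ w)ˣ, h ∈ U L.π L.n (L.pl w).φ y → h⁻¹ ∈ U L.π L.n (L.pl w).φ y)

/-- finitely many places in the support of `f` -/
def L_FW : Prop :=
  ∀ {O K C : Type u} [CommRing O] [IsDomain O] [IsNoetherianRing O] [Field K] [Algebra O K]
    [IsFractionRing O K] [AddCommGroup C] {ι : Type u} {κ : ι → Type u} [∀ w, Field (κ w)]
    (L : Loc O K C ι κ),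
    ∀ f : Kˣ, {w | (L.pl w).v f ≠ 0}.Finite

/-- finitely many `y` contain a given element outside `(π)` -/
def L_FY : Prop :=
  ∀ {O : Type u} [CommRing O] [IsDomain O] [IsNoetherianRing O] (π : O) (_ : Prime π),
    ∀ a : O, a ∉ Ideal.span {π} → {y : Ideal O | IsY π y ∧ a ∈ y}.Finite

/-- every place `w` has finitely many `y`; the ideal of `w` is not in `(π)` -/
def L_FYW : Prop :=
  ∀ {O K C : Type u} [CommRing O] [IsDomain O] [IsNoetherianRing O] [Field K] [Algebra O K]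
    [IsFractionRing O K] [AddCommGroup C] {ι : Type u} {κ : ι → Type u} [∀ w, Field (κ w)]
    (L : Loc O K C ι κ),
    ∀ w, {y : Ideal O | IsY L.π y ∧ L.P w ≤ y}.Finite ∧ (∃ a ∈ L.P w, a ∉ Ideal.span {L.π})

/-- high powers of elements of `y` are divisible by any element which does not vanish on `w` -/
def L_POW : Prop :=
  ∀ {O K C : Type u} [CommRing O] [IsDomain O] [IsNoetherianRing O] [Field K] [Algebra O K]
    [IsFractionRing O K] [AddCommGroup C] {ι : Type u} {κ : ι → Type u} [∀ w, Field (κ w)]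
    (L : Loc O K C ι κ),
    ∀ w y, IsY L.π y → L.P w ≤ y → ∀ a t : O, (L.pl w).φ a ≠ 0 → t ∈ y →
      ∃ J₀ : ℕ, ∀ J ≥ J₀, ∃ s c : O, s ∉ y ∧ (L.pl w).φ (s * t ^ J) = (L.pl w).φ (c * a)

/-- weak approximation at all the `y` of a place -/
def L_APPG : Prop :=
  ∀ {O K C : Type u} [CommRing O] [IsDomain O] [IsNoetherianRing O] [Field K] [Algebra O K]
    [IsFractionRing O K] [AddCommGroup C] {ι : Type u} {κ : ι → Type u} [∀ w, Field (κ w)]
    (L : Loc O K C ι κ),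
    ∀ w (F : Ideal O → (κ w)ˣ), ∃ f' : (κ w)ˣ, ∀ y, IsY L.π y → L.P w ≤ y →
      f' * (F y)⁻¹ ∈ U L.π L.n (L.pl w).φ y

/-- the approximation which defines `R` -/
def L_APP : Prop :=
  ∀ {O K C : Type u} [CommRing O] [IsDomain O] [IsNoetherianRing O] [Field K] [Algebra O K]
    [IsFractionRing O K] [AddCommGroup C] {ι : Type u} {κ : ι → Type u} [∀ w, Field (κ w)]
    (L : Loc O K C ι κ),
    ∀ w y (f : (κ w)ˣ), IsY L.π y → L.P w ≤ y → ∃ f', L.Approx w y f f' 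

/-- `R` is well defined -/
def L_REQ : Prop :=
  ∀ {O K C : Type u} [CommRing O] [IsDomain O] [IsNoetherianRing O] [Field K] [Algebra O K]
    [IsFractionRing O K] [AddCommGroup C] {ι : Type u} {κ : ι → Type u} [∀ w, Field (κ w)]
    (L : Loc O K C ι κ),
    ∀ w y (f f' : (κ w)ˣ), IsY L.π y → L.P w ≤ y → L.Approx w y f f' → L.R w y f = L.δ w f' 

/-- `R` is a homomorphism -/
def L_RMUL : Prop :=
  ∀ {O K C : Type u} [CommRing O] [IsDomain O] [IsNoetherianRing O] [Field K] [Algebra O K]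
    [IsFractionRing O K] [AddCommGroup C] {ι : Type u} {κ : ι → Type u} [∀ w, Field (κ w)]
    (L : Loc O K C ι κ),
    ∀ w y (f g : (κ w)ˣ), L.R w y (f * g) = L.R w y f + L.R w y g

/-- `R` kills `U` -/
def L_RTRIV : Prop :=
  ∀ {O K C : Type u} [CommRing O] [IsDomain O] [IsNoetherianRing O] [Field K] [Algebra O K]
    [IsFractionRing O K] [AddCommGroup C] {ι : Type u} {κ : ι → Type u} [∀ w, Field (κ w)]
    (L : Loc O K C ι κ),
    ∀ w y (f : (κ w)ˣ), IsY L.π y → L.P w ≤ y → f ∈ U L.π L.n (L.pl w).φ y → L.R w y f = 0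

/-- the sum of the `R_{w,y}` over `y` is `δ_w` -/
def L_RSUM : Prop :=
  ∀ {O K C : Type u} [CommRing O] [IsDomain O] [IsNoetherianRing O] [Field K] [Algebra O K]
    [IsFractionRing O K] [AddCommGroup C] {ι : Type u} {κ : ι → Type u} [∀ w, Field (κ w)]
    (L : Loc O K C ι κ),
    ∀ w (f : (κ w)ˣ), ∑ᶠ y : {y : Ideal O // IsY L.π y}, L.R w y.1 f = L.δ w f

/-- the tame symbols of two functions are one at almost all places -/
def L_TFIN : Prop :=
  ∀ {O K C : Type u} [CommRing O] [IsDomain O] [IsNoetherianRing O] [Field K] [Algebra O K]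
    [IsFractionRing O K] [AddCommGroup C] {ι : Type u} {κ : ι → Type u} [∀ w, Field (κ w)]
    (L : Loc O K C ι κ),
    ∀ f g : Kˣ, (∀ w, (L.pl w).v f = 0 → (L.pl w).v g = 0 → (L.pl w).T f g = 1) ∧
      {w | (L.pl w).T f g ≠ 1}.Finite

/-- `RR` is bimultiplicative -/
def L_RRADD : Prop :=
  ∀ {O K C : Type u} [CommRing O] [IsDomain O] [IsNoetherianRing O] [Field K] [Algebra O K]
    [IsFractionRing O K] [AddCommGroup C] {ι : Type u} {κ : ι → Type u} [∀ w, Field (κ w)]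
    (L : Loc O K C ι κ),
    ∀ y, (∀ f f' g : Kˣ, L.RR y (f * f') g = L.RR y f g + L.RR y f' g) ∧
      (∀ f g g' : Kˣ, L.RR y f (g * g') = L.RR y f g + L.RR y f g')

/-- Steinberg relation -/
def L_RRST : Prop :=
  ∀ {O K C : Type u} [CommRing O] [IsDomain O] [IsNoetherianRing O] [Field K] [Algebra O K]
    [IsFractionRing O K] [AddCommGroup C] {ι : Type u} {κ : ι → Type u} [∀ w, Field (κ w)]
    (L : Loc O K C ι κ),
    ∀ y (f g : Kˣ), (f : K) + (g : K) = 1 → L.RR y f g = 0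

/-- the sum of `RR_y` over `y` is zero -/
def L_RRSUM : Prop :=
  ∀ {O K C : Type u} [CommRing O] [IsDomain O] [IsNoetherianRing O] [Field K] [Algebra O K]
    [IsFractionRing O K] [AddCommGroup C] {ι : Type u} {κ : ι → Type u} [∀ w, Field (κ w)]
    (L : Loc O K C ι κ),
    ∀ f g : Kˣ, ∑ᶠ y : {y : Ideal O // IsY L.π y}, L.RR y.1 f g = 0

/-- criterion: `RR_y(f,g) = 0` if all the tame symbols at `y` are in `U` -/
def L_RRY : Prop :=
  ∀ {O K C : Type u} [CommRing O] [IsDomain O] [IsNoetherianRing O] [Field K] [Algebra O K]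
    [IsFractionRing O K] [AddCommGroup C] {ι : Type u} {κ : ι → Type u} [∀ w, Field (κ w)]
    (L : Loc O K C ι κ),
    ∀ y (f g : Kˣ), IsY L.π y → (∀ w, L.P w ≤ y → (L.pl w).T f g ∈ U L.π L.n (L.pl w).φ y) →
      L.RR y f g = 0

/-- Claim 2: the only bad `y'` (with `b` in `y'`) at which `g` may vanish is `y` -/
def L_CL2 : Prop :=
  ∀ {O K C : Type u} [CommRing O] [IsDomain O] [IsNoetherianRing O] [Field K] [Algebra O K]
    [IsFractionRing O K] [AddCommGroup C] {ι : Type u} {κ : ι → Type u} [∀ w, Field (κ w)]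
    (L : Loc O K C ι κ),
    ∀ (b c g : O) (u gK : Kˣ) (y : Ideal O), b ∉ Ideal.span {L.π} →
      (u : K) * algebraMap O K b = algebraMap O K (b + L.π ^ L.n * c) →
      (gK : K) = algebraMap O K g → IsY L.π y →
      (∀ y', IsY L.π y' → b ∈ y' → y' ≠ y → g ∉ y') → L.RR y u gK = 0

/-- prime avoidance in the form used for `q₀` -/
def L_AVO : Prop :=
  ∀ {O : Type u} [CommRing O],
    ∀ S₁ S₂ : Finset (Ideal O), (∀ p ∈ S₁, p.IsPrime) → (∀ p ∈ S₂, p.IsPrime) →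
      (∀ p₁ ∈ S₁, ∀ p₂ ∈ S₂, ¬ p₁ ≤ p₂) → ∃ x : O, (∀ p ∈ S₁, x ∈ p) ∧ ∀ p ∈ S₂, x ∉ p

/-- Lemma S1 -/
def L_S1 : Prop :=
  ∀ {O : Type u} [CommRing O] [IsDomain O] [IsNoetherianRing O] (π : O) (_ : Prime π),
    ∀ (n : ℕ) (b c g : O) (y : Ideal O), b ∉ Ideal.span {π} → g ∉ Ideal.span {π} →
      (∀ W : Ideal O, W.IsPrime → W.height = 1 → g ∈ W → b ∉ W ∧ b + π ^ n * c ∉ W) →
      IsY π y → g ∈ y →
      ∃ b' c' s : O, b' ∉ Ideal.span {π} ∧
        (∀ W : Ideal O, W.IsPrime → W.height = 1 → g ∈ W → b' ∉ W) ∧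
        (∀ y', IsY π y' → g ∈ y' → y' ≠ y → b' ∉ y') ∧ s ∉ y ∧
        s * (c' * b - c * b') ∈ Ideal.span {b' * (b + π ^ n * c), g}

/-- closeness: high powers of `q₀` at `y`, modulo `g + q₀ ^ J` -/
def L_CLO : Prop :=
  ∀ {O : Type u} [CommRing O] [IsDomain O] [IsNoetherianRing O] (π : O) (_ : Prime π),
    ∀ (d g q₀ : O) (y : Ideal O), g ∉ Ideal.span {π} →
      (∀ W : Ideal O, W.IsPrime → W.height = 1 → g ∈ W → d ∉ W) →
      IsY π y → g ∈ y → q₀ ∈ y →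
      ∃ J₀ : ℕ, ∀ J ≥ J₀, ∃ s : O, s ∉ y ∧ s * q₀ ^ J ∈ Ideal.span {d, g + q₀ ^ J}

/-- `1 + q₀ ^ J / g` is in `U` for large `J` -/
def L_GAM : Prop :=
  ∀ {O K C : Type u} [CommRing O] [IsDomain O] [IsNoetherianRing O] [Field K] [Algebra O K]
    [IsFractionRing O K] [AddCommGroup C] {ι : Type u} {κ : ι → Type u} [∀ w, Field (κ w)]
    (L : Loc O K C ι κ),
    ∀ w y, IsY L.π y → L.P w ≤ y → ∀ g q₀ : O, (L.pl w).φ g ≠ 0 → q₀ ∈ y →
      ∃ J₀ : ℕ, ∀ J ≥ J₀, ∀ h : (κ w)ˣ, (h : κ w) * (L.pl w).φ g = (L.pl w).φ (g + q₀ ^ J) →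
        h ∈ U L.π L.n (L.pl w).φ y

/-- the steps (delta) and (eps): `R_{w,y}(u)` is `δ_w(ρ)` -/
def L_RHO : Prop :=
  ∀ {O K C : Type u} [CommRing O] [IsDomain O] [IsNoetherianRing O] [Field K] [Algebra O K]
    [IsFractionRing O K] [AddCommGroup C] {ι : Type u} {κ : ι → Type u} [∀ w, Field (κ w)]
    (L : Loc O K C ι κ),
    ∀ (b c b' c' : O) (y : Ideal O) w (h r : (κ w)ˣ), IsY L.π y →
      (L.pl w).φ b ≠ 0 → (L.pl w).φ b' ≠ 0 →
      (h : κ w) * (L.pl w).φ b = (L.pl w).φ (b + L.π ^ L.n * c) →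
      (r : κ w) * (L.pl w).φ b' = (L.pl w).φ (b' + L.π ^ L.n * c') →
      (∀ y', IsY L.π y' → L.P w ≤ y' → y' ≠ y → b' ∉ y') →
      (L.P w ≤ y → ∃ s a : O, s ∉ y ∧ (L.pl w).φ (s * (c' * b - c * b')) =
        (L.pl w).φ (b' * (b + L.π ^ L.n * c) * a)) →
      (L.P w ≤ y → L.R w y h = L.δ w r) ∧ (¬ L.P w ≤ y → L.δ w r = 0)

/-- the coprime case, elements of `O` -/
def L_COP : Prop :=
  ∀ {O K C : Type u} [CommRing O] [IsDomain O] [IsNoetherianRing O] [Field K] [Algebra O K]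
    [IsFractionRing O K] [AddCommGroup C] {ι : Type u} {κ : ι → Type u} [∀ w, Field (κ w)]
    (L : Loc O K C ι κ),
    ∀ (b c g : O) (u gK : Kˣ) (y : Ideal O), b ∉ Ideal.span {L.π} → g ∉ Ideal.span {L.π} →
      (u : K) * algebraMap O K b = algebraMap O K (b + L.π ^ L.n * c) →
      (gK : K) = algebraMap O K g → IsY L.π y →
      (∀ W : Ideal O, W.IsPrime → W.height = 1 → g ∈ W → b ∉ W ∧ b + L.π ^ L.n * c ∉ W) →
      L.RR y u gK = 0

/-- common denominators at finitely many primes -/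
def L_SEM : Prop :=
  ∀ {O : Type u} [CommRing O] [IsDomain O],
    ∀ {K : Type u} [Field K] [Algebra O K] [IsFractionRing O K] (S : Finset (Ideal O)) (f : K),
      (∀ p ∈ S, p.IsPrime) →
      (∀ p ∈ S, ∃ a s : O, s ∉ p ∧ f * algebraMap O K s = algebraMap O K a) →
      ∃ a s : O, (∀ p ∈ S, s ∉ p) ∧ f * algebraMap O K s = algebraMap O K a

/-- the coprime case, elements of `K` -/
def L_COPK : Prop :=
  ∀ {O K C : Type u} [CommRing O] [IsDomain O] [IsNoetherianRing O] [Field K] [Algebra O K]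
    [IsFractionRing O K] [AddCommGroup C] {ι : Type u} {κ : ι → Type u} [∀ w, Field (κ w)]
    (L : Loc O K C ι κ),
    ∀ (u g : Kˣ) (y : Ideal O), IsY L.π y →
      (∃ b c : O, b ∉ Ideal.span {L.π} ∧
        (u : K) * algebraMap O K b = algebraMap O K (b + L.π ^ L.n * c)) →
      (∃ a s : O, a ∉ Ideal.span {L.π} ∧ s ∉ Ideal.span {L.π} ∧
        (g : K) * algebraMap O K s = algebraMap O K a) →
      (∀ w, (L.pl w).v g ≠ 0 → (L.pl w).v u = 0) → L.RR y u g = 0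

/-- uniformisers in `O` at a place, outside finitely many other places and `(π)` -/
def L_HW : Prop :=
  ∀ {O K C : Type u} [CommRing O] [IsDomain O] [IsNoetherianRing O] [Field K] [Algebra O K]
    [IsFractionRing O K] [AddCommGroup C] {ι : Type u} {κ : ι → Type u} [∀ w, Field (κ w)]
    (L : Loc O K C ι κ),
    ∀ (S : Finset ι) w, w ∉ S → ∃ (h : O) (hK : Kˣ), (hK : K) = algebraMap O K h ∧
      (L.pl w).v hK = 1 ∧ h ∉ Ideal.span {L.π} ∧ ∀ w' ∈ S, (L.pl w').v hK = 0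

/-- the functions `ξ_w` -/
def L_XI : Prop :=
  ∀ {O K C : Type u} [CommRing O] [IsDomain O] [IsNoetherianRing O] [Field K] [Algebra O K]
    [IsFractionRing O K] [AddCommGroup C] {ι : Type u} {κ : ι → Type u} [∀ w, Field (κ w)]
    (L : Loc O K C ι κ),
    ∀ (S : Finset ι) w, w ∉ S → ∃ ξ : Kˣ, (L.pl w).v ξ = 1 ∧ (∀ w' ∈ S, (L.pl w').v ξ = 0) ∧
      (∀ w', w' ≠ w → (L.pl w').v ξ ≤ 0) ∧
      (∃ a s : O, a ∉ Ideal.span {L.π} ∧ s ∉ Ideal.span {L.π} ∧
        (ξ : K) * algebraMap O K s = algebraMap O K a)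

/-- the Steinberg step for `ξ` -/
def L_STX : Prop :=
  ∀ {O K C : Type u} [CommRing O] [IsDomain O] [IsNoetherianRing O] [Field K] [Algebra O K]
    [IsFractionRing O K] [AddCommGroup C] {ι : Type u} {κ : ι → Type u} [∀ w, Field (κ w)]
    (L : Loc O K C ι κ),
    ∀ (ξ u : Kˣ) (y : Ideal O) (N : ℕ), IsY L.π y → L.q ∣ N →
      (u : K) = 1 - algebraMap O K L.π ^ N * ((ξ⁻¹ : Kˣ) : K) → L.RR y u ξ = 0

/-- the local theorem: `RR_y` kills all symbols `{u, g}`, `u` congruent to one -/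
def L_KEY : Prop :=
  ∀ {O K C : Type u} [CommRing O] [IsDomain O] [IsNoetherianRing O] [Field K] [Algebra O K]
    [IsFractionRing O K] [AddCommGroup C] {ι : Type u} {κ : ι → Type u} [∀ w, Field (κ w)]
    (L : Loc O K C ι κ),
    ∀ (u g : Kˣ) (y : Ideal O), IsY L.π y →
      (∃ b c : O, b ∉ Ideal.span {L.π} ∧
        (u : K) * algebraMap O K b = algebraMap O K (b + L.π ^ L.n * c)) →
      (∃ a s : O, a ∉ Ideal.span {L.π} ∧ s ∉ Ideal.span {L.π} ∧
        (g : K) * algebraMap O K s = algebraMap O K a) → L.RR y u g = 0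

end KW
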