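import Pool.Agent.H15.KW.Defs

/-!
# Targets of block A (orders and tame symbols) and block T (section 2 of the text H15_KEW.md)
-/

namespace KW

universe u

/-- `M / g M` and the kernel of `g` on `M` have finite length -/
def EFin {R : Type*} [CommRing R] (g : R) (M : Type*) [AddCommGroup M] [Module R M] : Prop :=
  Module.length R (M ⧸ LinearMap.range (LinearMap.lsmul R M g)) ≠ ⊤ ∧
    Module.length R (LinearMap.ker (LinearMap.lsmul R M g)) ≠ ⊤

/-- length of `M / g M` minus length of the kernel of `g` on `M` -/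
noncomputable def eM {R : Type*} [CommRing R] (g : R) (M : Type*) [AddCommGroup M] [Module R M] :
    ℤ :=
  ((Module.length R (M ⧸ LinearMap.range (LinearMap.lsmul R M g))).toNat : ℤ) -
    ((Module.length R (LinearMap.ker (LinearMap.lsmul R M g))).toNat : ℤ)

/-- All the places of `K` at the height one primes of `O`. -/
structure Surf (O K : Type*) [CommRing O] [Field K] [Algebra O K] (ι : Type*) (κ : ι → Type*)
    [∀ w, Field (κ w)] where
  pl : ∀ w, Pl O K (κ w)
  ht : ∀ w, (RingHom.ker (pl w).φ).height = 1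
  inj : Function.Injective fun w => RingHom.ker (pl w).φ
  surj : ∀ W : Ideal O, W.IsPrime → W.height = 1 → ∃ w, RingHom.ker (pl w).φ = W

/-- the sum of the orders of the tame symbols -/
noncomputable def Surf.BB {O K : Type*} [CommRing O] [Field K] [Algebra O K] {ι : Type*}
    {κ : ι → Type*} [∀ w, Field (κ w)] (F : Surf O K ι κ) (f g : Kˣ) : ℤ :=
  ∑ᶠ w, ordP (F.pl w).φ ((F.pl w).T f g)

/-- the order does not depend on the fraction -/
def A_OEQ : Prop :=
  ∀ {S κ : Type u} [CommRing S] [Field κ] [IsNoetherianRing S] (φ : S →+* κ)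
    (_ : ∀ x : κ, ∃ a s : S, φ s ≠ 0 ∧ x * φ s = φ a)
    (_ : Ring.KrullDimLE 1 (S ⧸ RingHom.ker φ)),
    ∀ (h : κˣ) (a s : S), φ s ≠ 0 → (h : κ) * φ s = φ a →
      ordP φ h = (lenAt φ a : ℤ) - (lenAt φ s : ℤ)

/-- the order is additive -/
def A_OMUL : Prop :=
  ∀ {S κ : Type u} [CommRing S] [Field κ] [IsNoetherianRing S] (φ : S →+* κ)
    (_ : ∀ x : κ, ∃ a s : S, φ s ≠ 0 ∧ x * φ s = φ a)
    (_ : Ring.KrullDimLE 1 (S ⧸ RingHom.ker φ)),
    (∀ h h' : κˣ, ordP φ (h * h') = ordP φ h + ordP φ h') ∧ ordP φ (1 : κˣ) = 0 ∧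
      ordP φ (-1 : κˣ) = 0

/-- sign of the order and units; localisation of the length at a local ring -/
def A_OPOS : Prop :=
  ∀ {S κ : Type u} [CommRing S] [Field κ] [IsNoetherianRing S] (φ : S →+* κ)
    (_ : ∀ x : κ, ∃ a s : S, φ s ≠ 0 ∧ x * φ s = φ a)
    (_ : Ring.KrullDimLE 1 (S ⧸ RingHom.ker φ)),
    (∀ (h : κˣ) (a : S), (h : κ) = φ a → 0 ≤ ordP φ h) ∧
      (IsLocalRing S → ∀ (h : κˣ) (a s : S), IsUnit a → IsUnit s → (h : κ) * φ s = φ a →
        ordP φ h = 0)

/-- the order of a discrete valuation ring is its normalised valuation -/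
def A_VAL : Prop :=
  ∀ {S K κ : Type u} [CommRing S] [IsDomain S] [IsDiscreteValuationRing S] [Field K]
    [Algebra S K] [IsFractionRing S K] [Field κ] (ρ : S →+* κ)
    (_ : Function.Surjective ρ),
    (∀ f g : Kˣ, ordP (algebraMap S K) (f * g) =
        ordP (algebraMap S K) f + ordP (algebraMap S K) g) ∧
      (∀ (f : Kˣ) (a : S), (f : K) = algebraMap S K a → 0 ≤ ordP (algebraMap S K) f) ∧
      (∀ f : Kˣ, 0 ≤ ordP (algebraMap S K) f → ∃ a : S, (f : K) = algebraMap S K a) ∧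
      (∀ f : Kˣ, ordP (algebraMap S K) f = 0 ↔ ∃ a : Sˣ, (f : K) = algebraMap S K a) ∧
      (∀ (f : Kˣ) (a : S), Irreducible a → (f : K) = algebraMap S K a →
        ordP (algebraMap S K) f = 1) ∧
      (∀ a : S, ρ a ≠ 0 ↔ IsUnit a)

/-- the tame symbol computed from any fraction of units -/
def A_TEQ : Prop :=
  ∀ {S K κ : Type u} [CommRing S] [IsDomain S] [IsDiscreteValuationRing S] [Field K]
    [Algebra S K] [IsFractionRing S K] [Field κ] (ρ : S →+* κ)
    (_ : Function.Surjective ρ),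
    (∀ f g : Kˣ, ∃ a : Sˣ, (tamE (algebraMap S K) f g : K) = algebraMap S K a) ∧
      ∀ (f g : Kˣ) (a s : S), ρ s ≠ 0 → (tamE (algebraMap S K) f g : K) * algebraMap S K s =
        algebraMap S K a → ((tamP (algebraMap S K) ρ f g : κˣ) : κ) * ρ s = ρ a

/-- the tame symbol is bimultiplicative -/
def A_TMUL : Prop :=
  ∀ {S K κ : Type u} [CommRing S] [IsDomain S] [IsDiscreteValuationRing S] [Field K]
    [Algebra S K] [IsFractionRing S K] [Field κ] (ρ : S →+* κ)
    (_ : Function.Surjective ρ),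
    (∀ f f' g : Kˣ, tamP (algebraMap S K) ρ (f * f') g =
        tamP (algebraMap S K) ρ f g * tamP (algebraMap S K) ρ f' g) ∧
      (∀ f g g' : Kˣ, tamP (algebraMap S K) ρ f (g * g') =
        tamP (algebraMap S K) ρ f g * tamP (algebraMap S K) ρ f g')

/-- Steinberg relation of the tame symbol -/
def A_TST : Prop :=
  ∀ {S K κ : Type u} [CommRing S] [IsDomain S] [IsDiscreteValuationRing S] [Field K]
    [Algebra S K] [IsFractionRing S K] [Field κ] (ρ : S →+* κ)
    (_ : Function.Surjective ρ),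
    ∀ f g : Kˣ, (f : K) + (g : K) = 1 → tamP (algebraMap S K) ρ f g = 1

/-- the tame symbol with a unit -/
def A_TUN : Prop :=
  ∀ {S K κ : Type u} [CommRing S] [IsDomain S] [IsDiscreteValuationRing S] [Field K]
    [Algebra S K] [IsFractionRing S K] [Field κ] (ρ : S →+* κ)
    (_ : Function.Surjective ρ),
    ∀ (f g : Kˣ) (a s : S), ρ a ≠ 0 → ρ s ≠ 0 → (g : K) * algebraMap S K s = algebraMap S K a →
      ((tamP (algebraMap S K) ρ f g : κˣ) : κ) = (ρ a / ρ s) ^ (-(ordP (algebraMap S K) f)) ∧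
      ((tamP (algebraMap S K) ρ g f : κˣ) : κ) = (ρ a / ρ s) ^ (ordP (algebraMap S K) f)

/-- the place attached to the localisation `S` of `O` at a height one prime -/
def A_PL : Prop :=
  ∀ {O S K κ : Type u} [CommRing O] [IsDomain O] [IsNoetherianRing O] [CommRing S] [IsDomain S]
    [IsDiscreteValuationRing S] [Field K] [Algebra O S] [Algebra S K] [Algebra O K]
    [IsScalarTower O S K] [IsFractionRing S K] [IsFractionRing O K] [Field κ] (ρ : S →+* κ)
    (_ : Function.Surjective ρ) (P : Ideal O) [P.IsPrime] [IsLocalization.AtPrime S P],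
    ∃ p : Pl O K κ, p.φ = ρ.comp (algebraMap O S) ∧ p.v = ordP (algebraMap S K) ∧
      p.T = tamP (algebraMap S K) ρ ∧ RingHom.ker p.φ = P

/-- associated primes of principal ideals in a normal domain have height one -/
def T_UNM : Prop :=
  ∀ {O : Type u} [CommRing O] [IsDomain O] [IsNoetherianRing O] [IsIntegrallyClosed O] (a : O),
    a ≠ 0 → ∀ P ∈ associatedPrimes O (O ⧸ Ideal.span {a}), P.height = 1

/-- regular sequences of length two in a normal domain -/
def T_REG : Prop :=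
  ∀ {O : Type u} [CommRing O] [IsDomain O] [IsNoetherianRing O] [IsIntegrallyClosed O] (a g : O),
    a ≠ 0 → (∀ W : Ideal O, W.IsPrime → W.height = 1 → a ∈ W → g ∉ W) →
    ∀ x : O, g * x ∈ Ideal.span {a} → x ∈ Ideal.span {a}

/-- section 4, (dim): the maximal ideal is not minimal over `P + (π)` -/
def T_DIM : Prop :=
  ∀ {O : Type u} [CommRing O] [IsDomain O] [IsNoetherianRing O] [IsLocalRing O] (π : O),
    Prime π → IsIntegrallyClosed (O ⧸ Ideal.span {π}) → ringKrullDim (O ⧸ Ideal.span {π}) = 2 →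
    ∀ P : Ideal O, P.IsPrime → P.height = 1 → π ∉ P →
    ∀ y ∈ (P ⊔ Ideal.span {π}).minimalPrimes, IsY π y

/-- additivity of `eM` in short exact sequences -/
def T_EADD : Prop :=
  ∀ {R M₁ M₂ M₃ : Type u} [CommRing R] [AddCommGroup M₁] [Module R M₁] [AddCommGroup M₂]
    [Module R M₂] [AddCommGroup M₃] [Module R M₃] (g : R) (i : M₁ →ₗ[R] M₂) (p : M₂ →ₗ[R] M₃),
    Function.Injective i → Function.Exact i p → Function.Surjective p →
    (EFin g M₁ → EFin g M₃ → EFin g M₂ ∧ eM g M₂ = eM g M₁ + eM g M₃)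

/-- `eM` of a module killed by a power of `f`, by a prime filtration -/
def T_FILT : Prop :=
  ∀ {O M : Type u} [CommRing O] [IsDomain O] [IsNoetherianRing O] [IsLocalRing O]
    [AddCommGroup M] [Module O M] [Module.Finite O M] (f g : O), ringKrullDim O = 2 → f ≠ 0 →
    (∀ W : Ideal O, W.IsPrime → W.height = 1 → f ∈ W → g ∉ W) → (∃ k : ℕ, ∀ x : M, f ^ k • x = 0) →
    EFin g M ∧ eM g M = ∑ᶠ W : {W : PrimeSpectrum O // W.asIdeal.height = 1 ∧ f ∈ W.asIdeal},
      ((Module.length (Localization.AtPrime W.1.asIdeal)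
        (LocalizedModule W.1.asIdeal.primeCompl M)).toNat : ℤ) *
      ((Module.length O (O ⧸ (W.1.asIdeal ⊔ Ideal.span {g}))).toNat : ℤ)

/-- the valuation of `f` in `O` is the length of the localisation of `O / f` -/
def T_VLEN : Prop :=
  ∀ {O K : Type u} [CommRing O] [IsDomain O] [IsNoetherianRing O] [IsLocalRing O]
    [IsIntegrallyClosed O] [Field K] [Algebra O K] [IsFractionRing O K] {ι : Type u}
    {κ : ι → Type u} [∀ w, Field (κ w)] (_ : ringKrullDim O = 2) (F : Surf O K ι κ),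
    ∀ w (f : O) (fK : Kˣ), (fK : K) = algebraMap O K f → ∀ [(RingHom.ker (F.pl w).φ).IsPrime],
      (F.pl w).v fK = ((Module.length (Localization.AtPrime (RingHom.ker (F.pl w).φ))
        (LocalizedModule (RingHom.ker (F.pl w).φ).primeCompl (O ⧸ Ideal.span {f}))).toNat : ℤ)

/-- the symmetric length formula -/
def T_SYM : Prop :=
  ∀ {O K : Type u} [CommRing O] [IsDomain O] [IsNoetherianRing O] [IsLocalRing O]
    [IsIntegrallyClosed O] [Field K] [Algebra O K] [IsFractionRing O K] {ι : Type u}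
    {κ : ι → Type u} [∀ w, Field (κ w)] (_ : ringKrullDim O = 2) (F : Surf O K ι κ),
    ∀ (f g : O) (fK gK : Kˣ), (fK : K) = algebraMap O K f → (gK : K) = algebraMap O K g →
      (∀ W : Ideal O, W.IsPrime → W.height = 1 → f ∈ W → g ∉ W) →
      ((Module.length O (O ⧸ Ideal.span {f, g})).toNat : ℤ) =
        ∑ᶠ w, (F.pl w).v fK * (lenAt (F.pl w).φ g : ℤ)

/-- finite supports -/
def T_SFIN : Prop :=
  ∀ {O K : Type u} [CommRing O] [IsDomain O] [IsNoetherianRing O] [IsLocalRing O]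
    [IsIntegrallyClosed O] [Field K] [Algebra O K] [IsFractionRing O K] {ι : Type u}
    {κ : ι → Type u} [∀ w, Field (κ w)] (_ : ringKrullDim O = 2) (F : Surf O K ι κ),
    (∀ f : Kˣ, {w | (F.pl w).v f ≠ 0}.Finite) ∧ (∀ f g : Kˣ,
      (∀ w, (F.pl w).v f = 0 → (F.pl w).v g = 0 → (F.pl w).T f g = 1) ∧
      {w | (F.pl w).T f g ≠ 1}.Finite) ∧
    ∀ w, (∀ h h' : (κ w)ˣ, ordP (F.pl w).φ (h * h') = ordP (F.pl w).φ h + ordP (F.pl w).φ h') ∧
      ∀ (h : (κ w)ˣ) (a s : O), (F.pl w).φ s ≠ 0 → (h : κ w) * (F.pl w).φ s = (F.pl w).φ a →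
      ordP (F.pl w).φ h = (lenAt (F.pl w).φ a : ℤ) - (lenAt (F.pl w).φ s : ℤ)

/-- `BB` is bimultiplicative -/
def T_BADD : Prop :=
  ∀ {O K : Type u} [CommRing O] [IsDomain O] [IsNoetherianRing O] [IsLocalRing O]
    [IsIntegrallyClosed O] [Field K] [Algebra O K] [IsFractionRing O K] {ι : Type u}
    {κ : ι → Type u} [∀ w, Field (κ w)] (_ : ringKrullDim O = 2) (F : Surf O K ι κ),
    (∀ f f' g : Kˣ, F.BB (f * f') g = F.BB f g + F.BB f' g) ∧
      (∀ f g g' : Kˣ, F.BB f (g * g') = F.BB f g + F.BB f g')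

/-- `BB f (-f) = 0`, `BB f (-1) = 0` -/
def T_BNEG : Prop :=
  ∀ {O K : Type u} [CommRing O] [IsDomain O] [IsNoetherianRing O] [IsLocalRing O]
    [IsIntegrallyClosed O] [Field K] [Algebra O K] [IsFractionRing O K] {ι : Type u}
    {κ : ι → Type u} [∀ w, Field (κ w)] (_ : ringKrullDim O = 2) (F : Surf O K ι κ),
    ∀ f : Kˣ, F.BB f (-f) = 0 ∧ F.BB f (-1) = 0 ∧ F.BB (-1) f = 0

/-- `BB` of coprime elements of `O` -/
def T_BCOP0 : Prop :=
  ∀ {O K : Type u} [CommRing O] [IsDomain O] [IsNoetherianRing O] [IsLocalRing O]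
    [IsIntegrallyClosed O] [Field K] [Algebra O K] [IsFractionRing O K] {ι : Type u}
    {κ : ι → Type u} [∀ w, Field (κ w)] (_ : ringKrullDim O = 2) (F : Surf O K ι κ),
    ∀ (f g : O) (fK gK : Kˣ), (fK : K) = algebraMap O K f → (gK : K) = algebraMap O K g →
      (∀ W : Ideal O, W.IsPrime → W.height = 1 → f ∈ W → g ∉ W) → F.BB fK gK = 0

/-- `BB` of elements of `K` with disjoint supports -/
def T_BCOP : Prop :=
  ∀ {O K : Type u} [CommRing O] [IsDomain O] [IsNoetherianRing O] [IsLocalRing O]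
    [IsIntegrallyClosed O] [Field K] [Algebra O K] [IsFractionRing O K] {ι : Type u}
    {κ : ι → Type u} [∀ w, Field (κ w)] (_ : ringKrullDim O = 2) (F : Surf O K ι κ),
    ∀ f g : Kˣ, (∀ w, (F.pl w).v f ≠ 0 → (F.pl w).v g = 0) → F.BB f g = 0

/-- uniformisers in `O` at a place, units at finitely many other places -/
def T_HW : Prop :=
  ∀ {O K : Type u} [CommRing O] [IsDomain O] [IsNoetherianRing O] [IsLocalRing O]
    [IsIntegrallyClosed O] [Field K] [Algebra O K] [IsFractionRing O K] {ι : Type u}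
    {κ : ι → Type u} [∀ w, Field (κ w)] (_ : ringKrullDim O = 2) (F : Surf O K ι κ),
    ∀ (S : Finset ι) w, w ∉ S → ∃ (h : O) (hK : Kˣ), (hK : K) = algebraMap O K h ∧
      (F.pl w).v hK = 1 ∧ ∀ w' ∈ S, (F.pl w').v hK = 0

/-- the tame complex in dimension two -/
def T_MAIN : Prop :=
  ∀ {O K : Type u} [CommRing O] [IsDomain O] [IsNoetherianRing O] [IsLocalRing O]
    [IsIntegrallyClosed O] [Field K] [Algebra O K] [IsFractionRing O K] {ι : Type u}
    {κ : ι → Type u} [∀ w, Field (κ w)] (_ : ringKrullDim O = 2) (F : Surf O K ι κ),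
    ∀ f g : Kˣ, F.BB f g = 0

end KW
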